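import Mathlib

namespace Pool.Agent.Results.MP_b81452_nt.PrimeBound

lemma leg (x y z p : ℤ) (hx : 0 < x) (hy : 0 < y) (hz : 0 < z) (h : x ^ 2 + y ^ 2 = z ^ 2)
    (hp : Prime p) (h2 : ¬ p ∣ 2) (hpx : p ∣ x) (hpy : ¬ p ∣ y) : p ^ 2 < 2 * z := by
  have hyz : y < z := by nlinarith
  have hd : p ^ 2 ∣ (z - y) * (z + y) := by
    have : (z - y) * (z + y) = x ^ 2 := by linarith
    rw [this]; exact pow_dvd_pow_of_dvd hpx 2
  by_cases h1 : p ∣ z - y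
  · have h3 : ¬ p ∣ z + y := by
      intro h3
      have : p ∣ 2 * y := by
        have := dvd_sub h3 h1
        have e : z + y - (z - y) = 2 * y := by ring
        rwa [e] at this
      rcases hp.dvd_or_dvd this with h | h
      · exact h2 h
      · exact hpy h
    have : p ^ 2 ∣ z - y := hp.pow_dvd_of_dvd_mul_right 2 h3 hd
    have := Int.le_of_dvd (by linarith) this
    linarith
  · have : p ^ 2 ∣ z + y := hp.pow_dvd_of_dvd_mul_left 2 h1 hd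
    have := Int.le_of_dvd (by linarith) this
    linarith

lemma tri (x y z p : ℤ) (hx : 0 < x) (hy : 0 < y) (hz : 0 < z) (h : x ^ 2 + y ^ 2 = z ^ 2)
    (hp : Prime p) (h2 : ¬ p ∣ 2) (hd : p ∣ x * y * z) :
    p ^ 2 < 2 * z ∨ (p ∣ x ∧ p ∣ y ∧ p ∣ z) ∨ (¬ p ∣ x ∧ ¬ p ∣ y ∧ p ∣ z) := by
  by_cases hpx : p ∣ x
  · by_cases hpy : p ∣ y
    · right; left
      refine ⟨hpx, hpy, hp.dvd_of_dvd_pow (n := 2) ?_⟩
      rw [← h]
      exact dvd_add (dvd_pow hpx two_ne_zero) (dvd_pow hpy two_ne_zero)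
    · left; exact leg x y z p hx hy hz h hp h2 hpx hpy
  · by_cases hpy : p ∣ y
    · left; exact leg y x z p hy hx hz (by linarith) hp h2 hpy hpx
    · right; right
      refine ⟨hpx, hpy, ?_⟩
      rcases hp.dvd_or_dvd hd with h1 | h1
      · rcases hp.dvd_or_dvd h1 with h1 | h1
        · exact absurd h1 hpx
        · exact absurd h1 hpy
      · exact h1

lemma cube_ne (c f : ℕ) (hf : 0 < f) : c ^ 3 ≠ 2 * f ^ 3 := by
  intro h
  have h1 := congrArg (padicValNat 2) h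
  have : Fact (Nat.Prime 2) := ⟨Nat.prime_two⟩
  rw [padicValNat.mul (by norm_num) (by positivity), padicValNat.pow c 3,
    padicValNat.pow f 3, padicValNat.self (by norm_num)] at h1
  omega

lemma cube_small (p z w : ℤ) (hp : Prime p) (hp0 : 0 < p) (hz : 0 < z) (hw : ¬ p ∣ w)
    (h : p ^ 3 ∣ w * z) : p ^ 2 < 2 * z := by
  have h1 : p ^ 3 ∣ z := hp.pow_dvd_of_dvd_mul_left 3 hw h
  have h2 := Int.le_of_dvd hz h1
  have h3 : p ^ 2 ≤ p ^ 3 := by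
    have : p ^ 3 = p ^ 2 * p := by ring
    rw [this]; nlinarith [pow_pos hp0 2]
  linarith

lemma main (a b c d e f p : ℤ) (ha : 0 < a) (hb : 0 < b) (hc : 0 < c) (hd : 0 < d) (he : 0 < e)
    (hf : 0 < f) (h1 : a ^ 2 + b ^ 2 = c ^ 2) (h2 : d ^ 2 + e ^ 2 = f ^ 2)
    (h : a * b * c = 2 * (d * e * f)) (hne : c ^ 3 ≠ 2 * f ^ 3) (hp : Prime p) (hp2 : ¬ p ∣ 2)
    (hpa : ¬ p ∣ a) (hpc : p ∣ c) (hpd : ¬ p ∣ d) (hpe : ¬ p ∣ e) :
    p ^ 5 < c ^ 3 + 2 * f ^ 3 := by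
  obtain ⟨v, c1, hc1, hcv⟩ := WfDvdMonoid.max_power_factor hc.ne' hp.irreducible
  have hv : v ≠ 0 := by
    rintro rfl
    apply hc1
    simpa [hcv] using hpc
  have hde : ¬ p ∣ 2 * (d * e) := by
    intro hh
    rcases hp.dvd_or_dvd hh with hh | hh
    · exact hp2 hh
    · rcases hp.dvd_or_dvd hh with hh | hh
      · exact hpd hh
      · exact hpe hh
  have hqf : p ^ v ∣ f := by
    apply hp.pow_dvd_of_dvd_mul_left v hde
    have : 2 * (d * e) * f = a * b * c1 * p ^ v := by rw [hcv] at h; linarith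
    rw [this]; exact Dvd.intro_left _ rfl
  obtain ⟨f1, hf1⟩ := hqf
  obtain ⟨w, rfl⟩ := Nat.exists_eq_succ_of_ne_zero hv
  set q := p ^ (w + 1) with hq
  have hq0 : q ≠ 0 := pow_ne_zero _ hp.ne_zero
  have hpq : p ∣ q := dvd_pow_self p (Nat.succ_ne_zero w)
  set G1 := c1 * (a ^ 2 - b ^ 2) - 2 * f1 * (d ^ 2 - e ^ 2) with hG1
  set G2 := c1 * (a ^ 2 - b ^ 2) + 2 * f1 * (d ^ 2 - e ^ 2) with hG2
  have hA : q * G1 = c * (a ^ 2 - b ^ 2) - 2 * f * (d ^ 2 - e ^ 2) := by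
    rw [hG1, hcv, hf1]; ring
  have hB : q * G2 = c * (a ^ 2 - b ^ 2) + 2 * f * (d ^ 2 - e ^ 2) := by
    rw [hG2, hcv, hf1]; ring
  have hprod : (q * G1) * (q * G2) = c ^ 6 - 4 * f ^ 6 := by
    rw [hA, hB]
    have e1 : (a ^ 2 - b ^ 2) ^ 2 = c ^ 4 - 4 * (a * b) ^ 2 := by
      have : c ^ 4 = (a ^ 2 + b ^ 2) ^ 2 := by rw [h1]; ring
      rw [this]; ring
    have e2 : (d ^ 2 - e ^ 2) ^ 2 = f ^ 4 - 4 * (d * e) ^ 2 := by
      have : f ^ 4 = (d ^ 2 + e ^ 2) ^ 2 := by rw [h2]; ring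
      rw [this]; ring
    have e3 : (a * b * c) ^ 2 = (2 * (d * e * f)) ^ 2 := by rw [h]
    linear_combination c ^ 2 * e1 - 4 * f ^ 2 * e2 - 4 * e3
  have hprod1 : G1 * G2 = q ^ 4 * (c1 ^ 6 - 4 * f1 ^ 6) := by
    apply mul_left_cancel₀ (pow_ne_zero 2 hq0)
    have : c ^ 6 - 4 * f ^ 6 = q ^ 2 * (q ^ 4 * (c1 ^ 6 - 4 * f1 ^ 6)) := by
      rw [hcv, hf1]; ring
    rw [← this, ← hprod]; ring
  have hp4 : p ^ 4 ∣ G1 * G2 := by
    rw [hprod1]; exact Dvd.dvd.mul_right (pow_dvd_pow_of_dvd hpq 4) _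
  have hnz : (q * G1) * (q * G2) ≠ 0 := by
    rw [hprod]
    have : c ^ 6 - 4 * f ^ 6 = (c ^ 3 - 2 * f ^ 3) * (c ^ 3 + 2 * f ^ 3) := by ring
    rw [this]
    exact mul_ne_zero (sub_ne_zero.mpr hne) (by positivity)
  have hnot : ¬ (p ∣ G1 ∧ p ∣ G2) := by
    rintro ⟨u1, u2⟩
    have u3 : p ∣ 2 * (c1 * (a ^ 2 - b ^ 2)) := by
      have := dvd_add u1 u2
      have e : G1 + G2 = 2 * (c1 * (a ^ 2 - b ^ 2)) := by rw [hG1, hG2]; ring
      rwa [e] at this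
    rcases hp.dvd_or_dvd u3 with u | u
    · exact hp2 u
    · rcases hp.dvd_or_dvd u with u | u
      · exact hc1 u
      · have u4 : p ∣ 2 * a ^ 2 := by
          have := dvd_add u (dvd_pow hpc two_ne_zero)
          have e : a ^ 2 - b ^ 2 + c ^ 2 = 2 * a ^ 2 := by linarith
          rwa [e] at this
        rcases hp.dvd_or_dvd u4 with u | u
        · exact hp2 u
        · exact hpa (hp.dvd_of_dvd_pow u)
  have s1 : |c * (a ^ 2 - b ^ 2)| < c ^ 3 := by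
    rw [abs_lt]
    constructor <;> nlinarith [mul_pos hc (pow_pos ha 2), mul_pos hc (pow_pos hb 2)]
  have s2 : |2 * f * (d ^ 2 - e ^ 2)| < 2 * f ^ 3 := by
    rw [abs_lt]
    constructor <;> nlinarith [mul_pos hf (pow_pos hd 2), mul_pos hf (pow_pos he 2)]
  rw [abs_lt] at s1 s2
  have fin : ∀ G : ℤ, q * G ≠ 0 → p ^ 4 ∣ G → p ^ 5 ≤ |q * G| := by
    intro G hG hG4
    apply Int.le_of_dvd (abs_pos.mpr hG)
    rw [dvd_abs]
    have : p ^ 5 = p * p ^ 4 := by ring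
    rw [this]; exact mul_dvd_mul hpq hG4
  by_cases u1 : p ∣ G1
  · have u2 : ¬ p ∣ G2 := fun u2 => hnot ⟨u1, u2⟩
    have := fin G1 (left_ne_zero_of_mul hnz) (hp.pow_dvd_of_dvd_mul_right 4 u2 hp4)
    rw [hA] at this
    have t : |c * (a ^ 2 - b ^ 2) - 2 * f * (d ^ 2 - e ^ 2)| < c ^ 3 + 2 * f ^ 3 := by
      rw [abs_lt]; constructor <;> linarith [s1.1, s1.2, s2.1, s2.2]
    linarith
  · have := fin G2 (right_ne_zero_of_mul hnz) (hp.pow_dvd_of_dvd_mul_left 4 u1 hp4)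
    rw [hB] at this
    have t : |c * (a ^ 2 - b ^ 2) + 2 * f * (d ^ 2 - e ^ 2)| < c ^ 3 + 2 * f ^ 3 := by
      rw [abs_lt]; constructor <;> linarith [s1.1, s1.2, s2.1, s2.2]
    linarith

theorem result (a b c d e f : ℕ) (ha : 0 < a) (hb : 0 < b) (hc : 0 < c) (hd : 0 < d)
    (he : 0 < e) (hf : 0 < f) (h1 : a ^ 2 + b ^ 2 = c ^ 2) (h2 : d ^ 2 + e ^ 2 = f ^ 2)
    (h : a * b * c = 2 * (d * e * f)) (p : ℕ) (hp : p.Prime) (hdiv : p ∣ a * b * c)
    (hnot : ¬ (p ∣ a ∧ p ∣ b ∧ p ∣ c ∧ p ∣ d ∧ p ∣ e ∧ p ∣ f)) :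
    p ^ 2 < 2 * max c f ∨ (p ∣ c ∧ p ∣ f ∧ p ^ 5 < c ^ 3 + 2 * f ^ 3) := by
  have hm1 : c ≤ max c f := le_max_left _ _
  have hm2 : f ≤ max c f := le_max_right _ _
  by_cases hp2 : p = 2
  · left
    subst hp2
    have : 3 ≤ c := by
      by_contra hh
      have hac : a < c := by nlinarith
      have hbc : b < c := by nlinarith
      have : c = 2 := by omega
      have : a = 1 := by omega
      have : b = 1 := by omega
      subst_vars
      omega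
    omega
  have hpZ : Prime (p : ℤ) := Nat.prime_iff_prime_int.mp hp
  have hp2Z : ¬ (p : ℤ) ∣ 2 := by
    intro hh
    have : p ∣ 2 := by exact_mod_cast hh
    exact hp2 ((Nat.prime_dvd_prime_iff_eq hp Nat.prime_two).mp this)
  have ha' : (0 : ℤ) < a := by exact_mod_cast ha
  have hb' : (0 : ℤ) < b := by exact_mod_cast hb
  have hc' : (0 : ℤ) < c := by exact_mod_cast hc
  have hd' : (0 : ℤ) < d := by exact_mod_cast hd
  have he' : (0 : ℤ) < e := by exact_mod_cast he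
  have hf' : (0 : ℤ) < f := by exact_mod_cast hf
  have hp' : (0 : ℤ) < p := by exact_mod_cast hp.pos
  have h1' : (a : ℤ) ^ 2 + b ^ 2 = c ^ 2 := by exact_mod_cast h1
  have h2' : (d : ℤ) ^ 2 + e ^ 2 = f ^ 2 := by exact_mod_cast h2
  have h' : (a : ℤ) * b * c = 2 * (d * e * f) := by exact_mod_cast h
  have hdiv' : (p : ℤ) ∣ a * b * c := by exact_mod_cast hdiv
  have hdiv2 : (p : ℤ) ∣ d * e * f := by
    rw [h'] at hdiv'
    rcases hpZ.dvd_or_dvd hdiv' with u | u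
    · exact absurd u hp2Z
    · exact u
  have L1 : (p : ℤ) ^ 2 < 2 * c → p ^ 2 < 2 * max c f := by
    intro u
    have : p ^ 2 < 2 * c := by exact_mod_cast u
    omega
  have L2 : (p : ℤ) ^ 2 < 2 * f → p ^ 2 < 2 * max c f := by
    intro u
    have : p ^ 2 < 2 * f := by exact_mod_cast u
    omega
  have cube : ∀ x y z : ℤ, (p : ℤ) ∣ x → (p : ℤ) ∣ y → (p : ℤ) ∣ z → (p : ℤ) ^ 3 ∣ x * y * z := by
    intro x y z u1 u2 u3
    have : (p : ℤ) ^ 3 = p * p * p := by ring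
    rw [this]; exact mul_dvd_mul (mul_dvd_mul u1 u2) u3
  have nd : ∀ x y : ℤ, ¬ (p : ℤ) ∣ x → ¬ (p : ℤ) ∣ y → ¬ (p : ℤ) ∣ x * y := by
    intro x y u1 u2 u
    rcases hpZ.dvd_or_dvd u with u | u
    · exact u1 u
    · exact u2 u
  rcases tri a b c p ha' hb' hc' h1' hpZ hp2Z hdiv' with u | ⟨u1, u2, u3⟩ | ⟨u1, u2, u3⟩
  · exact Or.inl (L1 u)
  · rcases tri d e f p hd' he' hf' h2' hpZ hp2Z hdiv2 with w | ⟨w1, w2, w3⟩ | ⟨w1, w2, _⟩
    · exact Or.inl (L2 w)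
    · exfalso
      apply hnot
      exact ⟨by exact_mod_cast u1, by exact_mod_cast u2, by exact_mod_cast u3,
        by exact_mod_cast w1, by exact_mod_cast w2, by exact_mod_cast w3⟩
    · left
      apply L2
      apply cube_small p f (2 * (d * e)) hpZ hp' hf' (nd _ _ hp2Z (nd _ _ w1 w2))
      have := cube _ _ _ u1 u2 u3
      rw [h'] at this
      have e0 : (2 : ℤ) * (d * e) * f = 2 * (d * e * f) := by ring
      rwa [e0]
  · rcases tri d e f p hd' he' hf' h2' hpZ hp2Z hdiv2 with w | ⟨w1, w2, w3⟩ | ⟨w1, w2, w3⟩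
    · exact Or.inl (L2 w)
    · left
      apply L1
      apply cube_small p c (a * b) hpZ hp' hc' (nd _ _ u1 u2)
      rw [h']
      exact Dvd.dvd.mul_left (cube _ _ _ w1 w2 w3) 2
    · right
      refine ⟨by exact_mod_cast u3, by exact_mod_cast w3, ?_⟩
      have hne : (c : ℤ) ^ 3 ≠ 2 * f ^ 3 := by
        have := cube_ne c f hf
        exact_mod_cast this
      have := main a b c d e f p ha' hb' hc' hd' he' hf' h1' h2' h' hne hpZ hp2Z u1 u3 w1 w2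
      exact_mod_cast this

end Pool.Agent.Results.MP_b81452_nt.PrimeBound
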